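import Pool.Agent.Helper99.NX.Char

/-!
# The hitting lemma

`V1`, `V2` are arbitrary functions which give for every word `y` in `A ^ ι` a set of elements of `A`. For few pairs
`(y₁, y₂)` the set `V1 y₂ ∩ V2 y₁` is large and contains no letter of the word `w₀ + y₁ + y₂`.
-/

set_option autoImplicit false
set_option linter.unusedSectionVars false

namespace Pool.Agent.Helper99.NX

open Finset

variable {A ι : Type} [AddCommGroup A] [Fintype A] [DecidableEq A] [Fintype ι] [DecidableEq ι]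

/-- The indicator function of `V`. -/
def ind (V : (ι → A) → Finset A) (z : A) (y : ι → A) : ℂ := if z ∈ V y then 1 else 0

/-- The product of several of them. -/
def inds {t : ℕ} (V : (ι → A) → Finset A) (z : Fin t → A) (y : ι → A) : ℂ := ∏ j, ind V (z j) y

theorem norm_inds_le {t : ℕ} (V : (ι → A) → Finset A) (z : Fin t → A) (y : ι → A) : ‖inds V z y‖ ≤ 1 := by
  unfold inds
  rw [norm_prod]
  refine prod_le_one (fun j _ => norm_nonneg _) fun j _ => ?_
  unfold ind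
  split_ifs <;> simp

/-- The part of `V1 y₂ ∩ V2 y₁`, minus the indicator of the letter `w`. -/
noncomputable def dev (V1 V2 : (ι → A) → Finset A) (y₁ y₂ : ι → A) (w : A) : ℂ :=
  ∑ z, (1 / (Fintype.card A : ℂ) - if w = z then 1 else 0) * (ind V1 z y₂ * ind V2 z y₁)

/-- The coefficients of `1 / k` minus an indicator function. -/
noncomputable def kap (A : Type) [AddCommGroup A] [Fintype A] (ψ : AddChar A ℂ) : ℂ :=
  open Classical in if ψ = 0 then 0 else - (1 / (Fintype.card A : ℂ))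

theorem sum_kap (w z : A) : ∑ ψ, kap A ψ * ψ (w - z) = 1 / (Fintype.card A : ℂ) - if w = z then 1 else 0 := by
  classical
  have hk : (Fintype.card A : ℂ) ≠ 0 := Nat.cast_ne_zero.2 Fintype.card_ne_zero
  have h1 := AddChar.sum_apply_eq_ite (w - z)
  simp only [sub_eq_zero] at h1
  have h2 : ∑ ψ : AddChar A ℂ, kap A ψ * ψ (w - z) =
      ∑ ψ : AddChar A ℂ, (-(1 / (Fintype.card A : ℂ)) * ψ (w - z) + if ψ = 0 then 1 / (Fintype.card A : ℂ) else 0) := by
    refine sum_congr rfl fun ψ _ => ?_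
    unfold kap
    split_ifs with h
    · rw [h]
      simp
    · ring
  rw [h2, sum_add_distrib, ← mul_sum, h1, sum_ite_eq' univ (0 : AddChar A ℂ), if_pos (mem_univ _)]
  split_ifs with h
  · field_simp
    ring
  · ring

/-- The coefficients for a set `s` of letters. -/
noncomputable def kaps (s : Finset ι) (c : ι) (ψ : AddChar A ℂ) : ℂ :=
  open Classical in if c ∈ s then kap A ψ else if ψ = 0 then 1 else 0

theorem sum_kaps (s : Finset ι) (w z : ι → A) :
    ∑ χ : ι → AddChar A ℂ, (∏ c, kaps s c (χ c)) * pch χ (w - z) =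
      ∏ c ∈ s, (1 / (Fintype.card A : ℂ) - if w c = z c then 1 else 0) := by
  classical
  unfold pch
  simp_rw [← prod_mul_distrib]
  rw [sum_prod_char (fun c ψ => kaps s c ψ * ψ ((w - z) c)), ← prod_subset (subset_univ s)]
  · refine prod_congr rfl fun c hc => ?_
    rw [← sum_kap]
    refine sum_congr rfl fun ψ _ => ?_
    unfold kaps
    rw [if_pos hc]
    rfl
  · intro c _ hc
    unfold kaps
    simp_rw [if_neg hc, ite_mul, zero_mul]
    rw [sum_ite_eq' univ (0 : AddChar A ℂ), if_pos (mem_univ _)]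
    simp

theorem sum_norm_kaps (t : ℕ) (χ : ι → AddChar A ℂ) :
    ∑ s ∈ powersetCard t (univ : Finset ι), ‖∏ c, kaps s c (χ c)‖ ≤ (1 / (Fintype.card A : ℝ)) ^ t := by
  classical
  have h1 : ∀ s ∈ powersetCard t (univ : Finset ι), s ≠ univ.filter (fun c => χ c ≠ 0) →
      ‖∏ c, kaps s c (χ c)‖ = 0 := by
    intro s _ hs
    rw [norm_eq_zero]
    by_contra h
    rw [prod_eq_zero_iff] at h
    push Not at h
    refine hs ?_
    ext c
    rw [mem_filter]
    have h2 := h c (mem_univ c)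
    unfold kaps kap at h2
    constructor
    · intro hc
      rw [if_pos hc] at h2
      refine ⟨mem_univ c, fun h3 => h2 (if_pos h3)⟩
    · rintro ⟨-, hc⟩
      by_contra h3
      rw [if_neg h3, if_neg hc] at h2
      exact h2 rfl
  by_cases h2 : univ.filter (fun c => χ c ≠ 0) ∈ powersetCard t (univ : Finset ι)
  · rw [sum_eq_single_of_mem _ h2 h1, norm_prod]
    have h3 : ∀ c, ‖kaps (univ.filter (fun c => χ c ≠ 0)) c (χ c)‖ =
        if c ∈ univ.filter (fun c => χ c ≠ 0) then 1 / (Fintype.card A : ℝ) else 1 := by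
      intro c
      unfold kaps kap
      split_ifs with h4 h5 h5
      · exact absurd h5 (mem_filter.1 h4).2
      · simp
      · simp
      · exact absurd (mem_filter.2 ⟨mem_univ c, h5⟩) h4
    simp_rw [h3]
    rw [prod_ite_mem, univ_inter, prod_const, (mem_powersetCard.1 h2).2]
  · rw [sum_eq_zero fun s hs => h1 s hs fun h3 => h2 (h3 ▸ hs)]
    positivity

/-- The sum over all pairs of words of a product of deviations, for a set `s` of `t` letters. -/
theorem sum_prod_dev (V1 V2 : (ι → A) → Finset A) (w₀ : ι → A) {t : ℕ} (s : Finset ι) (hs : s.card = t) :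
    ‖∑ y₁ : ι → A, ∑ y₂ : ι → A, ∏ c ∈ s, dev V1 V2 y₁ y₂ (w₀ c + y₁ c + y₂ c)‖ ≤
      ∑ z : Fin t → A, ∑ χ : ι → AddChar A ℂ,
        ‖∏ c, kaps s c (χ c)‖ * (‖coef (inds V1 z) χ‖ * ‖coef (inds V2 z) χ‖) := by
  classical
  set e : s ≃ Fin t := s.equivFinOfCardEq hs with he
  -- the extension of a word
  let zz : (Fin t → A) → ι → A := fun z c => if h : c ∈ s then z (e ⟨c, h⟩) else 0
  have hzz : ∀ z j, zz z (e.symm j) = z j := by
    intro z j
    have h1 : ((e.symm j : s) : ι) ∈ s := (e.symm j).2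
    simp only [zz, dif_pos h1]
    congr 1
    exact e.apply_symm_apply j
  -- products over `s`
  have hprod : ∀ f : ι → ℂ, ∏ c ∈ s, f c = ∏ j, f (e.symm j) := by
    intro f
    rw [← prod_coe_sort s f]
    exact (Equiv.prod_comp e.symm (fun c : s => f c)).symm
  have h1 : ∀ y₁ y₂ : ι → A, ∏ c ∈ s, dev V1 V2 y₁ y₂ (w₀ c + y₁ c + y₂ c) =
      ∑ z : Fin t → A, (∏ c ∈ s, (1 / (Fintype.card A : ℂ) - if w₀ c + y₁ c + y₂ c = zz z c then 1 else 0)) *
        (inds V1 z y₂ * inds V2 z y₁) := by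
    intro y₁ y₂
    rw [hprod]
    unfold dev
    rw [prod_univ_sum, Fintype.piFinset_univ]
    refine sum_congr rfl fun z _ => ?_
    rw [prod_mul_distrib, prod_mul_distrib, hprod]
    simp_rw [hzz]
    rfl
  have h2 : ∀ z : Fin t → A, ∑ y₁ : ι → A, ∑ y₂ : ι → A,
      (∏ c ∈ s, (1 / (Fintype.card A : ℂ) - if w₀ c + y₁ c + y₂ c = zz z c then 1 else 0)) *
        (inds V1 z y₂ * inds V2 z y₁) =
      ∑ χ : ι → AddChar A ℂ, (∏ c, kaps s c (χ c)) * (pch χ (w₀ - zz z) *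
        (coef (inds V1 z) χ * coef (inds V2 z) χ)) := by
    intro z
    have h3 : ∀ y₁ y₂ : ι → A,
        ∏ c ∈ s, (1 / (Fintype.card A : ℂ) - if w₀ c + y₁ c + y₂ c = zz z c then 1 else 0) =
        ∑ χ : ι → AddChar A ℂ, (∏ c, kaps s c (χ c)) * (pch χ (w₀ - zz z) * (pch χ y₁ * pch χ y₂)) := by
      intro y₁ y₂
      have h4 := sum_kaps s (w₀ + y₁ + y₂) (zz z)
      simp only [Pi.add_apply] at h4
      rw [← h4]
      refine sum_congr rfl fun χ _ => ?_
      rw [show w₀ + y₁ + y₂ - zz z = (w₀ - zz z) + (y₁ + y₂) by abel, pch_add, pch_add]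
    simp_rw [h3, sum_mul]
    rw [sum_congr rfl fun y₁ _ => sum_comm, sum_comm]
    refine sum_congr rfl fun χ _ => ?_
    rw [coef, coef, sum_mul_sum, mul_sum, mul_sum]
    rw [sum_comm]
    refine sum_congr rfl fun y₂ _ => ?_
    rw [mul_sum, mul_sum]
    refine sum_congr rfl fun y₁ _ => ?_
    ring
  simp_rw [h1]
  rw [sum_congr rfl fun y₁ _ => sum_comm, sum_comm]
  refine (norm_sum_le _ _).trans (sum_le_sum fun z _ => ?_)
  rw [h2]
  refine (norm_sum_le _ _).trans (sum_le_sum fun χ _ => ?_)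
  rw [norm_mul, norm_mul, norm_pch, one_mul, norm_mul]

theorem sum_powersetCard_dev (V1 V2 : (ι → A) → Finset A) (w₀ : ι → A) (t : ℕ) :
    ‖∑ s ∈ powersetCard t (univ : Finset ι), ∑ y₁ : ι → A, ∑ y₂ : ι → A,
        ∏ c ∈ s, dev V1 V2 y₁ y₂ (w₀ c + y₁ c + y₂ c)‖ ≤ ((Fintype.card A : ℝ) ^ Fintype.card ι) ^ 2 := by
  have hk : (Fintype.card A : ℝ) ≠ 0 := Nat.cast_ne_zero.2 Fintype.card_ne_zero
  calc ‖∑ s ∈ powersetCard t (univ : Finset ι), ∑ y₁ : ι → A, ∑ y₂ : ι → A,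
        ∏ c ∈ s, dev V1 V2 y₁ y₂ (w₀ c + y₁ c + y₂ c)‖
      ≤ ∑ s ∈ powersetCard t (univ : Finset ι), ∑ z : Fin t → A, ∑ χ : ι → AddChar A ℂ,
        ‖∏ c, kaps s c (χ c)‖ * (‖coef (inds V1 z) χ‖ * ‖coef (inds V2 z) χ‖) :=
        (norm_sum_le _ _).trans (sum_le_sum fun s hs => sum_prod_dev V1 V2 w₀ s (mem_powersetCard.1 hs).2)
    _ = ∑ z : Fin t → A, ∑ χ : ι → AddChar A ℂ, (∑ s ∈ powersetCard t (univ : Finset ι),
        ‖∏ c, kaps s c (χ c)‖) * (‖coef (inds V1 z) χ‖ * ‖coef (inds V2 z) χ‖) := by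
        rw [sum_comm]
        refine sum_congr rfl fun z _ => ?_
        rw [sum_comm]
        refine sum_congr rfl fun χ _ => ?_
        rw [sum_mul]
    _ ≤ ∑ z : Fin t → A, ∑ χ : ι → AddChar A ℂ, (1 / (Fintype.card A : ℝ)) ^ t *
        (‖coef (inds V1 z) χ‖ * ‖coef (inds V2 z) χ‖) :=
        sum_le_sum fun z _ => sum_le_sum fun χ _ => mul_le_mul_of_nonneg_right (sum_norm_kaps t χ) (by positivity)
    _ ≤ ∑ _z : Fin t → A, (1 / (Fintype.card A : ℝ)) ^ t * ((Fintype.card A : ℝ) ^ Fintype.card ι) ^ 2 := by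
        refine sum_le_sum fun z _ => ?_
        rw [← mul_sum]
        exact mul_le_mul_of_nonneg_left (sum_coef_le _ _ (norm_inds_le V1 z) (norm_inds_le V2 z)) (by positivity)
    _ = ((Fintype.card A : ℝ) ^ Fintype.card ι) ^ 2 := by
        rw [sum_const, card_univ, Fintype.card_fun, Fintype.card_fin, nsmul_eq_mul]
        push_cast
        rw [← mul_assoc, ← mul_pow, mul_one_div_cancel hk, one_pow, one_mul]

theorem dev_eq (V1 V2 : (ι → A) → Finset A) (y₁ y₂ : ι → A) (w : A) :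
    dev V1 V2 y₁ y₂ w =
      (((V1 y₂ ∩ V2 y₁).card / (Fintype.card A : ℝ) - if w ∈ V1 y₂ ∩ V2 y₁ then 1 else 0 : ℝ) : ℂ) := by
  unfold dev
  have h1 : ∀ z, ind V1 z y₂ * ind V2 z y₁ = if z ∈ V1 y₂ ∩ V2 y₁ then 1 else 0 := by
    intro z
    unfold ind
    by_cases h2 : z ∈ V1 y₂ <;> by_cases h3 : z ∈ V2 y₁ <;> simp [h2, h3]
  simp_rw [h1, sub_mul, sum_sub_distrib]
  rw [← mul_sum]
  have h2 : ∑ z : A, (if z ∈ V1 y₂ ∩ V2 y₁ then (1 : ℂ) else 0) = (V1 y₂ ∩ V2 y₁).card := by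
    rw [sum_ite_mem, univ_inter, sum_const, nsmul_eq_mul, mul_one]
  rw [h2]
  have h3 : ∑ z : A, (if w = z then (1 : ℂ) else 0) * (if z ∈ V1 y₂ ∩ V2 y₁ then (1 : ℂ) else 0) =
      if w ∈ V1 y₂ ∩ V2 y₁ then 1 else 0 := by
    simp_rw [ite_mul, one_mul, zero_mul]
    rw [sum_ite_eq univ w, if_pos (mem_univ _)]
  rw [h3]
  split_ifs <;> push_cast <;> ring

/-- The hitting lemma. -/
theorem hitting (V1 V2 : (ι → A) → Finset A) (w₀ : ι → A) (δ : ℝ) (hδ : 0 ≤ δ) :
    (Nat.card {y : (ι → A) × (ι → A) // δ * Fintype.card A ≤ (V1 y.2 ∩ V2 y.1).card ∧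
        ∀ c, w₀ c + y.1 c + y.2 c ∉ V1 y.2 ∩ V2 y.1} : ℝ) * (1 + δ / 2) ^ Fintype.card ι ≤
      2 * ((Fintype.card A : ℝ) ^ Fintype.card ι) ^ 2 := by
  classical
  have hk : (0 : ℝ) < Fintype.card A := Nat.cast_pos.2 Fintype.card_pos
  -- the real deviations
  let x : (ι → A) → (ι → A) → ι → ℝ := fun y₁ y₂ c =>
    (V1 y₂ ∩ V2 y₁).card / (Fintype.card A : ℝ) - if w₀ c + y₁ c + y₂ c ∈ V1 y₂ ∩ V2 y₁ then 1 else 0
  have hx : ∀ y₁ y₂ c, dev V1 V2 y₁ y₂ (w₀ c + y₁ c + y₂ c) = (x y₁ y₂ c : ℂ) := fun y₁ y₂ c => dev_eq _ _ _ _ _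
  have hx1 : ∀ y₁ y₂ c, 0 ≤ 1 + 1 / 2 * x y₁ y₂ c := by
    intro y₁ y₂ c
    have h1 : (0 : ℝ) ≤ (V1 y₂ ∩ V2 y₁).card / (Fintype.card A : ℝ) := by positivity
    simp only [x]
    split_ifs <;> linarith
  -- the upper bound
  have hup : ∑ y₁ : ι → A, ∑ y₂ : ι → A, ∏ c, (1 + 1 / 2 * x y₁ y₂ c) ≤
      2 * ((Fintype.card A : ℝ) ^ Fintype.card ι) ^ 2 := by
    have h1 : ((∑ y₁ : ι → A, ∑ y₂ : ι → A, ∏ c, (1 + 1 / 2 * x y₁ y₂ c) : ℝ) : ℂ) =
        ∑ t ∈ range (Fintype.card ι + 1), (1 / 2 : ℂ) ^ t * ∑ s ∈ powersetCard t (univ : Finset ι),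
          ∑ y₁ : ι → A, ∑ y₂ : ι → A, ∏ c ∈ s, dev V1 V2 y₁ y₂ (w₀ c + y₁ c + y₂ c) := by
      have h2 : ∀ y₁ y₂ : ι → A, ((∏ c, (1 + 1 / 2 * x y₁ y₂ c) : ℝ) : ℂ) =
          ∑ t ∈ range (Fintype.card ι + 1), ∑ s ∈ powersetCard t (univ : Finset ι),
            (1 / 2 : ℂ) ^ t * ∏ c ∈ s, dev V1 V2 y₁ y₂ (w₀ c + y₁ c + y₂ c) := by
        intro y₁ y₂
        rw [prod_one_add, sum_powerset, Complex.ofReal_sum]
        refine sum_congr (by rw [card_univ]) fun t _ => ?_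
        rw [Complex.ofReal_sum]
        refine sum_congr rfl fun s hs => ?_
        rw [prod_mul_distrib, prod_const, (mem_powersetCard.1 hs).2]
        simp_rw [hx]
        push_cast
        rfl
      rw [Complex.ofReal_sum]
      simp_rw [Complex.ofReal_sum, h2]
      simp_rw [mul_sum]
      rw [sum_congr rfl fun y₁ _ => sum_comm, sum_comm]
      refine sum_congr rfl fun t _ => ?_
      rw [sum_congr rfl fun y₁ _ => sum_comm, sum_comm]
    have h3 : ‖((∑ y₁ : ι → A, ∑ y₂ : ι → A, ∏ c, (1 + 1 / 2 * x y₁ y₂ c) : ℝ) : ℂ)‖ ≤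
        2 * ((Fintype.card A : ℝ) ^ Fintype.card ι) ^ 2 := by
      rw [h1]
      calc _ ≤ ∑ t ∈ range (Fintype.card ι + 1), (1 / 2 : ℝ) ^ t * ((Fintype.card A : ℝ) ^ Fintype.card ι) ^ 2 := by
            refine (norm_sum_le _ _).trans (sum_le_sum fun t _ => ?_)
            rw [norm_mul, norm_pow]
            have h4 : ‖(1 / 2 : ℂ)‖ = 1 / 2 := by norm_num
            rw [h4]
            exact mul_le_mul_of_nonneg_left (sum_powersetCard_dev V1 V2 w₀ t) (by positivity)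
        _ ≤ 2 * ((Fintype.card A : ℝ) ^ Fintype.card ι) ^ 2 := by
            rw [← sum_mul]
            exact mul_le_mul_of_nonneg_right (sum_geometric_two_le _) (by positivity)
    rw [Complex.norm_real] at h3
    exact (le_abs_self _).trans h3
  -- the lower bound
  refine le_trans ?_ hup
  rw [← Fintype.sum_prod_type']
  let G : (ι → A) × (ι → A) → Prop := fun y => δ * Fintype.card A ≤ (V1 y.2 ∩ V2 y.1).card ∧
        ∀ c, w₀ c + y.1 c + y.2 c ∉ V1 y.2 ∩ V2 y.1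
  calc (Nat.card {y // G y} : ℝ) * (1 + δ / 2) ^ Fintype.card ι
      = ∑ y ∈ univ.filter G, (1 + δ / 2) ^ Fintype.card ι := by
        rw [sum_const, nsmul_eq_mul, Nat.card_eq_fintype_card, Fintype.card_subtype]
    _ ≤ ∑ y ∈ univ.filter G, ∏ c, (1 + 1 / 2 * x y.1 y.2 c) := by
        refine sum_le_sum fun y hy => ?_
        obtain ⟨-, h1, h2⟩ := mem_filter.1 hy
        have h3 : δ ≤ (V1 y.2 ∩ V2 y.1).card / (Fintype.card A : ℝ) := (le_div_iff₀ hk).2 h1
        calc (1 + δ / 2) ^ Fintype.card ι = ∏ _c : ι, (1 + δ / 2) := by rw [prod_const, card_univ]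
          _ ≤ _ := by
              refine prod_le_prod (fun c _ => by positivity) fun c _ => ?_
              simp only [x]
              rw [if_neg (h2 c)]
              linarith
    _ ≤ ∑ y : (ι → A) × (ι → A), ∏ c, (1 + 1 / 2 * x y.1 y.2 c) :=
        sum_le_sum_of_subset_of_nonneg (filter_subset _ _) fun y _ _ => prod_nonneg fun c _ => hx1 _ _ _

end Pool.Agent.Helper99.NX
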