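import Mathlib

/-!
# Product characters
-/

set_option autoImplicit false

namespace Pool.Agent.Helper99.NX

open Finset

set_option linter.unusedSectionVars false

variable {A ι : Type} [AddCommGroup A] [Fintype A] [DecidableEq A] [Fintype ι] [DecidableEq ι]

/-- The product of the characters `χ c` of the coordinates. -/
noncomputable def pch (χ : ι → AddChar A ℂ) (y : ι → A) : ℂ := ∏ c, χ c (y c)

theorem pch_add (χ : ι → AddChar A ℂ) (y y' : ι → A) : pch χ (y + y') = pch χ y * pch χ y' := by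
  unfold pch
  rw [← prod_mul_distrib]
  exact prod_congr rfl fun c _ => AddChar.map_add_eq_mul _ _ _

theorem pch_neg (χ : ι → AddChar A ℂ) (y : ι → A) : pch χ (-y) = (starRingEnd ℂ) (pch χ y) := by
  unfold pch
  rw [map_prod]
  exact prod_congr rfl fun c _ => AddChar.map_neg_eq_conj _ _

theorem norm_pch (χ : ι → AddChar A ℂ) (y : ι → A) : ‖pch χ y‖ = 1 := by
  unfold pch
  rw [norm_prod]
  exact prod_eq_one fun c _ => AddChar.norm_apply _ _

/-- A sum over all families of characters of a product. -/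
theorem sum_prod_char (f : ι → AddChar A ℂ → ℂ) :
    ∑ χ : ι → AddChar A ℂ, ∏ c, f c (χ c) = ∏ c, ∑ ψ, f c ψ := by
  rw [prod_univ_sum, Fintype.piFinset_univ]

theorem sum_pch (y : ι → A) :
    ∑ χ : ι → AddChar A ℂ, pch χ y = if y = 0 then (Fintype.card A : ℂ) ^ Fintype.card ι else 0 := by
  unfold pch
  rw [sum_prod_char (fun c ψ => ψ (y c))]
  simp_rw [AddChar.sum_apply_eq_ite]
  split_ifs with h
  · subst h
    simp
  · obtain ⟨c, hc⟩ := Function.ne_iff.1 h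
    exact prod_eq_zero (mem_univ c) (if_neg hc)

/-- The coefficient of a function. -/
noncomputable def coef (f : (ι → A) → ℂ) (χ : ι → AddChar A ℂ) : ℂ := ∑ y, f y * pch χ y

theorem parseval (f : (ι → A) → ℂ) :
    ∑ χ : ι → AddChar A ℂ, ‖coef f χ‖ ^ 2 = (Fintype.card A : ℝ) ^ Fintype.card ι * ∑ y, ‖f y‖ ^ 2 := by
  have h1 : ∀ χ : ι → AddChar A ℂ, ((‖coef f χ‖ ^ 2 : ℝ) : ℂ) =
      ∑ y, ∑ y', f y * (starRingEnd ℂ) (f y') * pch χ (y - y') := by
    intro χ
    push_cast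
    rw [← Complex.mul_conj', coef, map_sum, sum_mul_sum]
    refine sum_congr rfl fun y _ => sum_congr rfl fun y' _ => ?_
    rw [map_mul, sub_eq_add_neg, pch_add, pch_neg]
    ring
  have h2 : ((∑ χ : ι → AddChar A ℂ, ‖coef f χ‖ ^ 2 : ℝ) : ℂ) =
      ((((Fintype.card A : ℝ) ^ Fintype.card ι * ∑ y, ‖f y‖ ^ 2 : ℝ)) : ℂ) := by
    rw [Complex.ofReal_sum]
    simp_rw [h1]
    rw [sum_comm]
    have h3 : ∀ y : ι → A, ∑ χ : ι → AddChar A ℂ, ∑ y', f y * (starRingEnd ℂ) (f y') * pch χ (y - y') =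
        (Fintype.card A : ℂ) ^ Fintype.card ι * (‖f y‖ : ℂ) ^ 2 := by
      intro y
      rw [sum_comm]
      simp_rw [← mul_sum, sum_pch, sub_eq_zero]
      rw [sum_eq_single y]
      · rw [if_pos rfl, Complex.mul_conj']
        ring
      · intro b _ hb
        rw [if_neg (Ne.symm hb), mul_zero]
      · intro h
        exact absurd (mem_univ y) h
    simp_rw [h3]
    rw [← mul_sum]
    push_cast
    rfl
  exact_mod_cast h2

/-- The sum of the absolute values of the products of the coefficients of two functions bounded by 1. -/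
theorem sum_coef_le (f g : (ι → A) → ℂ) (hf : ∀ y, ‖f y‖ ≤ 1) (hg : ∀ y, ‖g y‖ ≤ 1) :
    ∑ χ : ι → AddChar A ℂ, ‖coef f χ‖ * ‖coef g χ‖ ≤ ((Fintype.card A : ℝ) ^ Fintype.card ι) ^ 2 := by
  have h1 : ∀ f : (ι → A) → ℂ, (∀ y, ‖f y‖ ≤ 1) → ∑ χ : ι → AddChar A ℂ, ‖coef f χ‖ ^ 2 ≤
      ((Fintype.card A : ℝ) ^ Fintype.card ι) ^ 2 := by
    intro f hf
    rw [parseval, sq]
    refine mul_le_mul_of_nonneg_left ?_ (by positivity)
    calc ∑ y, ‖f y‖ ^ 2 ≤ ∑ _y : ι → A, (1 : ℝ) := sum_le_sum fun y _ => pow_le_one₀ (norm_nonneg _) (hf y)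
      _ = (Fintype.card A : ℝ) ^ Fintype.card ι := by simp
  have h2 := h1 f hf
  have h3 := h1 g hg
  have h4 : ∑ χ : ι → AddChar A ℂ, ‖coef f χ‖ * ‖coef g χ‖ ≤
      ∑ χ : ι → AddChar A ℂ, (‖coef f χ‖ ^ 2 + ‖coef g χ‖ ^ 2) / 2 :=
    sum_le_sum fun χ _ => by nlinarith [sq_nonneg (‖coef f χ‖ - ‖coef g χ‖)]
  rw [← sum_div, sum_add_distrib] at h4
  linarith

end Pool.Agent.Helper99.NX
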