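import Pool.Agent.Helper99.NX.Hit
import Pool.Agent.Helper74.NE.Defs

/-!
# The product lemma from the hitting lemma
-/

set_option autoImplicit false

namespace Pool.Agent.Helper99.NX

open Finset Pool.Agent.Helper74.NE

/-- The product lemma. -/
theorem dp (B ι : Type) [AddCommGroup B] [Finite B] [Finite ι] (T : ℕ) (ε : ℝ) (h0 : 0 ≤ ε)
    (hT : (T : ℝ) ≤ (1 - ε) * Nat.card B) : DP B ι T (2 / (1 + ε / 2) ^ Nat.card ι) := by
  classical
  have : Fintype B := Fintype.ofFinite B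
  have : Fintype ι := Fintype.ofFinite ι
  intro x Z₁ Z₂
  have h1 := hitting (fun z => univ.filter (fun b => b ∉ Z₁ z)) (fun y => univ.filter (fun b => b ∉ Z₂ y)) x ε h0
  rw [Nat.card_eq_fintype_card (α := ι)]
  rw [Nat.card_eq_fintype_card (α := B)] at hT
  have h2 : (0 : ℝ) < (1 + ε / 2) ^ Fintype.card ι := by positivity
  have h3 : (Nat.card ((ι → B) × (ι → B)) : ℝ) = ((Fintype.card B : ℝ) ^ Fintype.card ι) ^ 2 := by
    rw [Nat.card_prod, Nat.card_eq_fintype_card, Fintype.card_fun]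
    push_cast
    ring
  rw [h3, div_mul_eq_mul_div, le_div_iff₀ h2]
  refine le_trans (mul_le_mul_of_nonneg_right ?_ h2.le) h1
  have h4 : ∀ p : (ι → B) × (ι → B), ∀ b, b ∈ univ.filter (fun b => b ∉ Z₁ p.2) ∩ univ.filter (fun b => b ∉ Z₂ p.1) ↔
      b ∉ Z₁ p.2 ∪ Z₂ p.1 := by
    intro p b
    simp [Set.mem_union]
  have h5 : Nat.card {p : (ι → B) × (ι → B) // (Z₁ p.2 ∪ Z₂ p.1).ncard ≤ T ∧
      ∀ t, x t + p.1 t + p.2 t ∈ Z₁ p.2 ∪ Z₂ p.1} ≤
      Nat.card {y : (ι → B) × (ι → B) // ε * Fintype.card B ≤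
        (univ.filter (fun b => b ∉ Z₁ y.2) ∩ univ.filter (fun b => b ∉ Z₂ y.1)).card ∧
        ∀ c, x c + y.1 c + y.2 c ∉ univ.filter (fun b => b ∉ Z₁ y.2) ∩ univ.filter (fun b => b ∉ Z₂ y.1)} := by
    refine Nat.card_le_card_of_injective (fun p => ⟨p.1, ?_⟩) (fun p q h => by simpa [Subtype.ext_iff] using h)
    obtain ⟨p, hp1, hp2⟩ := p
    refine ⟨?_, fun c hc => ((h4 p _).1 hc) (hp2 c)⟩
    have h6 : univ.filter (fun b => b ∉ Z₁ p.2) ∩ univ.filter (fun b => b ∉ Z₂ p.1) =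
        (Z₁ p.2 ∪ Z₂ p.1).toFinsetᶜ := by
      ext b
      rw [h4, mem_compl, Set.mem_toFinset]
    have h7 : (Z₁ p.2 ∪ Z₂ p.1).toFinset.card ≤ T := by
      rw [← Set.ncard_eq_toFinset_card']
      exact hp1
    have h8 := card_compl (Z₁ p.2 ∪ Z₂ p.1).toFinset
    have h9 : (Z₁ p.2 ∪ Z₂ p.1).toFinset.card ≤ Fintype.card B := card_le_univ _
    rw [h6, h8, Nat.cast_sub h9]
    have h10 : ((Z₁ p.2 ∪ Z₂ p.1).toFinset.card : ℝ) ≤ T := by exact_mod_cast h7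
    linarith
  exact_mod_cast h5

end Pool.Agent.Helper99.NX
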